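import Pool.Agent.TH908.KH.Cases
import Pool.Agent.R738.TwoHubs
import Pool.Agent.R85.NearStar.Main

/-!
# The smallest graceful tree containing a given tree: `γ(T) = |E(T)|` for trees with few hubs

For every `k` there is `D` such that every finite tree `T` with `m` edges and a set `S` of at most `k`
vertices such that `D (s + 1) ≤ m`, where `s` is the number of the vertices outside `S` which are not
adjacent to a vertex of `S`, is graceful, so `T` itself is the smallest graceful tree containing `T`.

Proof.  All but `2 (s + k)` of the vertices outside `S` are leaves adjacent to a vertex of `S`.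
Induction on `k`: if some vertex of `S` has few leaves, it is removed from `S`.  Otherwise the cases of
one and two hubs are starting results, and the case of at least three hubs is the theorem
`Pool.Agent.TH908.KH.cases_all` of the starting files (an unfinished project, used by no result).
-/

set_option autoImplicit false

namespace Pool.Agent.Results.MP_128071_co.BoundedlyManyHubs

/-- A graph with `m` edges is graceful if there is an injective map `f` of the vertices to
`{0, 1, …, m}` such that the edge labels `|f u - f v|` are exactly `1, …, m`. -/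
def Graceful {V : Type} (T : SimpleGraph V) : Prop :=
  ∃ f : V → ℕ, Function.Injective f ∧ (∀ v, f v ≤ T.edgeSet.ncard) ∧
    {d : ℕ | ∃ u v : V, T.Adj u v ∧ d = Int.natAbs ((f u : ℤ) - (f v : ℤ))} =
      Set.Icc 1 T.edgeSet.ncard

/-- The numbers of edges of the finite graceful trees which have a subgraph isomorphic to `T`. -/
def gracefulSizes {V : Type} (T : SimpleGraph V) : Set ℕ :=
  {k | ∃ (W : Type) (_ : Fintype W) (T' : SimpleGraph W),
    T'.IsTree ∧ Graceful T' ∧ T.IsContained T' ∧ T'.edgeSet.ncard = k}

/-- `γ(T)`: the least number of edges of a graceful tree which has a subgraph isomorphic to `T`. -/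
noncomputable def gamma {V : Type} (T : SimpleGraph V) : ℕ := sInf (gracefulSizes T)

/-- `x` is a leaf adjacent to `v`. -/
def LeafAt {V : Type} (T : SimpleGraph V) (v x : V) : Prop := T.Adj v x ∧ ∀ y, T.Adj x y → y = v

/-- The vertices outside `S` which are not leaves adjacent to a vertex of `S`. -/
def Rest {V : Type} (T : SimpleGraph V) (S : Finset V) : Set V :=
  {x | x ∉ S ∧ ∀ i ∈ S, ¬ LeafAt T i x}

theorem le_of_mem {V : Type} {T : SimpleGraph V} {k : ℕ}
    (hk : k ∈ gracefulSizes T) : T.edgeSet.ncard ≤ k := by
  classical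
  obtain ⟨W, _, T', _, _, ⟨φ⟩, rfl⟩ := hk
  have hinj : Function.Injective φ := φ.injective
  have h1 : Sym2.map φ '' T.edgeSet ⊆ T'.edgeSet := by
    rintro _ ⟨e, he, rfl⟩
    induction e using Sym2.ind with
    | _ x y =>
      rw [Sym2.map_mk, SimpleGraph.mem_edgeSet]
      exact φ.toHom.map_adj ((SimpleGraph.mem_edgeSet T).1 he)
  calc T.edgeSet.ncard = (Sym2.map φ '' T.edgeSet).ncard :=
        (Set.ncard_image_of_injective _ (Sym2.map.injective hinj)).symm
    _ ≤ T'.edgeSet.ncard := Set.ncard_le_ncard h1 (Set.toFinite _)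

theorem empty_case {V : Type} [Fintype V] (T : SimpleGraph V) (hT : T.IsTree)
    (h : (Rest T ∅).ncard + 1 ≤ T.edgeSet.ncard) : False := by
  have h1 := Pool.Agent.H115R2.ncard_edge T hT
  have h2 : Rest T (∅ : Finset V) = Set.univ := by
    ext x
    simp [Rest]
  rw [h2, Set.ncard_univ, Nat.card_eq_fintype_card] at h
  omega

theorem hubs (k : ℕ) : ∃ D : ℕ, 1 ≤ D ∧ ∀ (V : Type) [Fintype V] (T : SimpleGraph V), T.IsTree →
    ∀ S : Finset V, S.card ≤ k → D * ((Rest T S).ncard + 1) ≤ T.edgeSet.ncard →
    Pool.Agent.H115R2.Graceful T := by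
  induction k with
  | zero =>
    refine ⟨1, le_rfl, fun V _ T hT S hS h => ?_⟩
    have h0 : S = ∅ := Finset.card_eq_zero.1 (by omega)
    subst h0
    exact (empty_case T hT (by omega)).elim
  | succ k ih =>
    obtain ⟨D', hD', H'⟩ := ih
    obtain ⟨C, hC⟩ := Pool.Agent.TH908.KH.cases_all (k + 1) (Nat.succ_pos k)
    refine ⟨D' * (C + 3) + 10 ^ 19, le_trans (by norm_num : 1 ≤ 10 ^ 19) (Nat.le_add_left _ _),
      fun V _ T hT S hS h => ?_⟩
    classical
    obtain ⟨r, hr⟩ : ∃ r, r = (Rest T S).ncard := ⟨_, rfl⟩
    rw [← hr] at h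
    let L : V → Finset V := fun i => Finset.univ.filter (fun x => x ∉ S ∧ LeafAt T i x)
    have hLmem : ∀ i x, x ∈ L i ↔ x ∉ S ∧ LeafAt T i x := by
      intro i x
      simp [L]
    have hbnd : 10 ^ 18 * (10 * (r + 1)) ≤ T.edgeSet.ncard := by
      refine le_trans (le_of_eq ?_) (le_trans (Nat.mul_le_mul_right (r + 1)
        (Nat.le_add_left (10 ^ 19) (D' * (C + 3)))) h)
      ring
    have hb2 : 10 ^ 18 * (2 * r + 1) ≤ T.edgeSet.ncard :=
      le_trans (Nat.mul_le_mul_left _ (by omega)) hbnd
    have hb1 : 10 ^ 18 * r ≤ T.edgeSet.ncard := le_trans (Nat.mul_le_mul_left _ (by omega)) hbnd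
    have hb0 : r + 1 ≤ T.edgeSet.ncard := by
      refine le_trans ?_ hbnd
      calc r + 1 ≤ 10 * (r + 1) := by omega
        _ = 1 * (10 * (r + 1)) := (one_mul _).symm
        _ ≤ 10 ^ 18 * (10 * (r + 1)) := Nat.mul_le_mul_right _ (by norm_num)
    clear hbnd
    by_cases hbig : ∀ i ∈ S, (C + 1) * (r + 1) ≤ (L i).card
    · -- all hubs have many leaves
      rcases Finset.eq_empty_or_nonempty S with h0 | hne
      · exfalso
        subst h0
        rw [hr] at hb0
        exact empty_case T hT hb0
      obtain ⟨v, hv, hmax⟩ := Finset.exists_max_image S (fun i => (L i).card) hne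
      have hcard : Fintype.card V ≤ S.card + r + S.card * (L v).card := by
        have hcov : (Finset.univ : Finset V) ⊆ (S ∪ (Set.toFinite (Rest T S)).toFinset) ∪
            S.biUnion L := by
          intro x _
          simp only [Finset.mem_union, Set.Finite.mem_toFinset, Finset.mem_biUnion]
          by_cases hx : x ∈ S
          · exact Or.inl (Or.inl hx)
          · by_cases hx2 : ∃ i ∈ S, LeafAt T i x
            · obtain ⟨i, hi, hl⟩ := hx2
              exact Or.inr ⟨i, hi, (hLmem i x).2 ⟨hx, hl⟩⟩
            · push Not at hx2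
              exact Or.inl (Or.inr ⟨hx, hx2⟩)
        have c1 := Finset.card_le_card hcov
        have c2 := Finset.card_union_le (S ∪ (Set.toFinite (Rest T S)).toFinset) (S.biUnion L)
        have c3 := Finset.card_union_le S (Set.toFinite (Rest T S)).toFinset
        have c4 : (S.biUnion L).card ≤ S.card * (L v).card :=
          Finset.card_biUnion_le_card_mul S L _ hmax
        have c5 : (Set.toFinite (Rest T S)).toFinset.card = r := by
          rw [hr, Set.ncard_eq_toFinset_card _ (Set.toFinite _)]
        rw [Finset.card_univ] at c1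
        omega
      have hm := Pool.Agent.H115R2.ncard_edge T hT
      by_cases h3 : 3 ≤ S.card
      · have h4 : 1 < (S.erase v).card := by
          rw [Finset.card_erase_of_mem hv]
          omega
        obtain ⟨a, ha, b, hb, hab⟩ := Finset.one_lt_card.1 h4
        refine hC V T hT S (Set.toFinite (Rest T S)).toFinset L ?_ hS v a b hv
          (Finset.mem_of_mem_erase ha) (Finset.mem_of_mem_erase hb)
          (Finset.ne_of_mem_erase ha).symm (Finset.ne_of_mem_erase hb).symm hab ?_ ?_
        · refine ⟨?_, ?_, ?_⟩
          · intro i hi x hx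
            have := (hLmem i x).1 hx
            exact ⟨this.1, this.2.1, this.2.2⟩
          · intro x hx
            rw [Set.Finite.mem_toFinset] at hx
            exact ⟨hx.1, fun i hi hh => hx.2 i hi ((hLmem i x).1 hh).2⟩
          · intro x
            by_cases hx : x ∈ S
            · exact Or.inl hx
            · by_cases hx2 : ∃ i ∈ S, LeafAt T i x
              · obtain ⟨i, hi, hl⟩ := hx2
                exact Or.inr (Or.inr ⟨i, hi, (hLmem i x).2 ⟨hx, hl⟩⟩)
              · push Not at hx2
                refine Or.inr (Or.inl ?_)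
                rw [Set.Finite.mem_toFinset]
                exact ⟨hx, hx2⟩
        · intro i hi
          have h5 := hbig i hi
          rw [← Set.ncard_eq_toFinset_card _ (Set.toFinite _), ← hr]
          nlinarith
        · have h5 := hbig v hv
          have h6 : r + 1 ≤ (L v).card := by nlinarith
          have h7 : S.card * (L v).card ≤ (k + 1) * (L v).card := Nat.mul_le_mul_right _ hS
          have h8 : (k + 1) * (r + 1) ≤ (k + 1) * (L v).card := Nat.mul_le_mul_left _ h6
          have h9 : k + 1 + r ≤ (k + 1) * (r + 1) := by nlinarith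
          have h10 : 2 * (k + 1) * (L v).card = (k + 1) * (L v).card + (k + 1) * (L v).card := by
            ring
          omega
      · by_cases h2 : S.card = 2
        · obtain ⟨a, b, hab, hS2⟩ := Finset.card_eq_two.1 h2
          refine Pool.Agent.R738.TwoHubs.leaves T hT a b hab r ?_ hb2
          rw [hr]
          refine Set.ncard_le_ncard ?_ (Set.toFinite _)
          rintro x ⟨x1, x2, x3, x4⟩
          refine ⟨?_, ?_⟩
          · rw [hS2]
            simp [x1, x2]
          · intro i hi hl
            rw [hS2, Finset.mem_insert, Finset.mem_singleton] at hi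
            rcases hi with rfl | rfl
            · exact x3 hl
            · exact x4 hl
        · have h1 : S.card = 1 := by
            have := Finset.card_pos.2 hne
            omega
          obtain ⟨a, ha⟩ := Finset.card_eq_one.1 h1
          refine Pool.Agent.R85.NearStar.main T hT a r ?_ hb1
          rw [hr]
          refine Set.ncard_le_ncard ?_ (Set.toFinite _)
          rintro x ⟨x1, x2⟩
          refine ⟨?_, ?_⟩
          · rw [ha]
            simp [x1]
          · intro i hi hl
            rw [ha, Finset.mem_singleton] at hi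
            subst hi
            exact x2 hl.1
    · push Not at hbig
      obtain ⟨i, hi, hlt⟩ := hbig
      refine H' V T hT (S.erase i) ?_ ?_
      · rw [Finset.card_erase_of_mem hi]
        omega
      · have hsub : Rest T (S.erase i) ⊆ (Rest T S ∪ {i}) ∪ (↑(L i) : Set V) := by
          intro x hx
          obtain ⟨h1, h2⟩ := hx
          by_cases hxi : x = i
          · exact Or.inl (Or.inr hxi)
          · have hxS : x ∉ S := fun hh => h1 (Finset.mem_erase.2 ⟨hxi, hh⟩)
            by_cases hl : LeafAt T i x
            · right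
              rw [Finset.mem_coe]
              exact (hLmem i x).2 ⟨hxS, hl⟩
            · left
              left
              refine ⟨hxS, fun j hj => ?_⟩
              by_cases hji : j = i
              · rw [hji]
                exact hl
              · exact h2 j (Finset.mem_erase.2 ⟨hji, hj⟩)
        have h1 := Set.ncard_le_ncard hsub (Set.toFinite _)
        have h2 := Set.ncard_union_le (Rest T S ∪ {i}) (↑(L i) : Set V)
        have h3 := Set.ncard_union_le (Rest T S) ({i} : Set V)
        rw [Set.ncard_singleton, ← hr] at h3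
        rw [Set.ncard_coe_finset] at h2
        have h4 : (Rest T (S.erase i)).ncard + 1 ≤ (C + 3) * (r + 1) := by
          have : (C + 3) * (r + 1) = (C + 1) * (r + 1) + 2 * (r + 1) := by ring
          omega
        have h5 : D' * ((Rest T (S.erase i)).ncard + 1) ≤ D' * ((C + 3) * (r + 1)) :=
          Nat.mul_le_mul_left _ h4
        have h6 : D' * ((C + 3) * (r + 1)) ≤ (D' * (C + 3) + 10 ^ 19) * (r + 1) := by
          rw [← mul_assoc]
          exact Nat.mul_le_mul_right _ (Nat.le_add_right _ _)
        exact h5.trans (h6.trans h)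

/-- The vertices outside `S` which are adjacent to no vertex of `S`. -/
def Far {V : Type} (T : SimpleGraph V) (S : Finset V) : Set V :=
  {x | x ∉ S ∧ ∀ i ∈ S, ¬ T.Adj i x}

theorem count {V : Type} [Fintype V] (T : SimpleGraph V) (hT : T.IsTree) (S : Finset V) :
    (Rest T S).ncard ≤ 2 * (Far T S).ncard + 2 * S.card := by
  classical
  rcases Finset.eq_empty_or_nonempty S with h0 | ⟨r, hr⟩
  · subst h0
    have h1 : Rest T (∅ : Finset V) = Far T ∅ := by
      ext x
      simp [Rest, Far]
    rw [h1]
    omega
  obtain ⟨par, hp1, hp2⟩ := Pool.Agent.H115R2.exists_parent T hT r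
  -- a neighbour of `x` is its parent or its child
  have hch : ∀ x y, T.Adj x y → par x ≠ y → par y = x := by
    intro x y hxy hne
    rcases hT.dist_eq_dist_add_one_of_adj r hxy with h | h
    · exact absurd (hp2 x y hxy h) hne
    · exact hp2 y x hxy.symm h
  have hsub : Rest T S ⊆ (Far T S ∪ par '' ((↑S : Set V) ∪ Far T S)) ∪
      (fun x => par (par x)) '' (↑S : Set V) := by
    rintro x ⟨hxS, hxl⟩
    by_cases hf : ∀ i ∈ S, ¬ T.Adj i x
    · exact Or.inl (Or.inl ⟨hxS, hf⟩)
    push Not at hf
    obtain ⟨i, hi, hix⟩ := hf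
    have h1 : ∃ y, T.Adj x y ∧ y ≠ i := by
      by_contra hcon
      push Not at hcon
      exact hxl i hi ⟨hix, hcon⟩
    obtain ⟨y, hxy, hyi⟩ := h1
    by_cases hc : ∃ c, (c ∈ S ∨ c ∈ Far T S) ∧ par c = x
    · obtain ⟨c, hc1, hc2⟩ := hc
      left
      right
      exact ⟨c, hc1, hc2⟩
    push Not at hc
    -- the hub `i` is the parent of `x`
    have hpi : par x = i := by
      by_contra hne
      exact hc i (Or.inl hi) (hch x i hix.symm hne)
    have hpy : par y = x := hch x y hxy (by rw [hpi]; exact hyi.symm)
    have hyS : y ∉ S := fun h => hc y (Or.inl h) hpy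
    have hyF : y ∉ Far T S := fun h => hc y (Or.inr h) hpy
    have h2 : ∃ j ∈ S, T.Adj j y := by
      by_contra hcon
      push Not at hcon
      exact hyF ⟨hyS, hcon⟩
    obtain ⟨j, hj, hjy⟩ := h2
    have hpj : par j = y := by
      refine hch y j hjy.symm ?_
      rw [hpy]
      rintro rfl
      exact hxS hj
    right
    exact ⟨j, hj, by simp only [hpj, hpy]⟩
  have c1 := Set.ncard_le_ncard hsub (Set.toFinite _)
  have c2 := Set.ncard_union_le (Far T S ∪ par '' ((↑S : Set V) ∪ Far T S))
    ((fun x => par (par x)) '' (↑S : Set V))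
  have c3 := Set.ncard_union_le (Far T S) (par '' ((↑S : Set V) ∪ Far T S))
  have c4 : (par '' ((↑S : Set V) ∪ Far T S)).ncard ≤ ((↑S : Set V) ∪ Far T S).ncard :=
    Set.ncard_image_le (Set.toFinite _)
  have c5 := Set.ncard_union_le (↑S : Set V) (Far T S)
  have c6 : ((fun x => par (par x)) '' (↑S : Set V)).ncard ≤ (↑S : Set V).ncard :=
    Set.ncard_image_le (Set.toFinite _)
  rw [Set.ncard_coe_finset] at c5 c6
  omega

/-- For every `k` there is `D` such that the following holds for every finite tree `T` with `m` edges
and every set `S` of at most `k` vertices.  If `D (s + 1) ≤ m`, where `s` is the number of the vertices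
outside `S` which are adjacent to no vertex of `S`, then `T` is graceful and `γ(T) = |E(T)|`: `T` is a
smallest graceful tree containing `T`. -/
theorem result (k : ℕ) : ∃ D : ℕ, ∀ (V : Type) [Fintype V] (T : SimpleGraph V), T.IsTree →
    ∀ S : Finset V, S.card ≤ k →
    D * ({x : V | x ∉ S ∧ ∀ i ∈ S, ¬ T.Adj i x}.ncard + 1) ≤ T.edgeSet.ncard →
    Graceful T ∧ T.edgeSet.ncard ∈ gracefulSizes T ∧ gamma T = T.edgeSet.ncard := by
  obtain ⟨D, _, hD⟩ := hubs k
  refine ⟨D * (2 * k + 2), fun V _ T hT S hS h => ?_⟩
  have hg : Graceful T := by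
    refine hD V T hT S hS (le_trans ?_ h)
    have h1 := count T hT S
    rw [mul_assoc]
    refine Nat.mul_le_mul_left _ ?_
    have h2 : (2 * k + 2) * ((Far T S).ncard + 1) =
        2 * (k * (Far T S).ncard) + 2 * k + 2 * (Far T S).ncard + 2 := by ring
    change (Rest T S).ncard + 1 ≤ (2 * k + 2) * ((Far T S).ncard + 1)
    rw [h2]
    omega
  have hm : T.edgeSet.ncard ∈ gracefulSizes T :=
    ⟨V, inferInstance, T, hT, hg, SimpleGraph.IsContained.refl T, rfl⟩
  exact ⟨hg, hm, le_antisymm (Nat.sInf_le hm) (le_of_mem (Nat.sInf_mem ⟨_, hm⟩))⟩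

end Pool.Agent.Results.MP_128071_co.BoundedlyManyHubs
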