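import Pool.Agent.H608G.FromTree

/-!
# MP_128071_co: `γ(T) ≤ 2 |E(T)| - diam(T)`

Each tree `T` is contained in a graceful tree with at most `2 |E(T)| - diam(T)` edges.

Construction. Root `T` at `r`, let `h` be its height, number the vertices `0, …, m` in breadth first
order so that the last vertex of each level (but the last level) has a child, and let `d v` be the level
of `v`, `par v` its parent and `K u` the last of the children of the vertices `≤ u`. Add a twin `u*` of
each vertex `u` that is not the last vertex of its level, and join `u*` to the twin of `K u` if `K u` is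
in the next level, and to the vertex `K u` itself if it is the last vertex of the level of `u`. With
`M = 2 m - h` the graceful labels are `v - d/2` (`d = d v` even) and `M - v + (d + 1)/2` (`d` odd) for the
vertices of `T`, and `u - (d - 1)/2` (`d = d u` odd) and `M - u + d/2` (`d` even) for the twins. The edges
have the labels `M - (par v + v - d v)` and `M - (u + K u - d u)`. The root is chosen as an end of a
longest path, so that `h` is the diameter.
-/

set_option autoImplicit false

namespace Pool.Agent.Results.MP_128071_co.DiameterBound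

open SimpleGraph H608G

/-- the numbers of edges of the graceful trees that contain the graph `T` -/
def Sizes {V : Type} (T : SimpleGraph V) : Set ℕ :=
  {k | ∃ (W : Type) (_ : Finite W) (G : SimpleGraph W), G.IsTree ∧ Graceful G ∧
    T.IsContained G ∧ G.edgeSet.ncard = k}

/-- `γ(T)`: the least number of edges of a graceful tree that contains `T` -/
noncomputable def gam {V : Type} (T : SimpleGraph V) : ℕ := sInf (Sizes T)

/-- For a finite tree `T` the number `γ(T)` is attained, and `γ(T) ≤ 2 |E(T)| - dist(x, y)` for all
vertices `x, y`, that is, `γ(T) ≤ 2 |E(T)| - diam(T)`. -/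
theorem result {V : Type} [Finite V] (T : SimpleGraph V) (hT : T.IsTree) :
    gam T ∈ Sizes T ∧ ∀ x y : V, gam T + T.dist x y ≤ 2 * T.edgeSet.ncard := by
  have key : ∀ x y : V, ∃ k ∈ Sizes T, k + T.dist x y ≤ 2 * T.edgeSet.ncard := by
    intro x y
    obtain ⟨B, idx, h1, h2, h3, h4⟩ := exists_bfs T hT x
    obtain ⟨W, hW, G, j, hG1, hG2, hG3, hG4, hG5⟩ := B.graceful
    refine ⟨G.edgeSet.ncard, ⟨W, hW, G, hG1, hG2, ?_, rfl⟩, ?_⟩
    · refine ⟨⟨⟨fun v => j (idx v), ?_⟩, ?_⟩⟩
      · intro a b hab
        rcases h4 a b hab with ⟨h5, h6⟩ | ⟨h5, h6⟩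
        · have := hG5 (idx a) h5 (h2 a)
          rwa [h6] at this
        · have := (hG5 (idx b) h5 (h2 b)).symm
          rwa [h6] at this
      · intro a b hab
        exact h1 (hG4 _ _ (h2 a) (h2 b) hab)
    · have h5 := h3 y
      have h6 := B.dep_le (le_refl _)
      omega
  obtain ⟨r⟩ := hT.connected.nonempty
  obtain ⟨k, hk, _⟩ := key r r
  refine ⟨Nat.sInf_mem ⟨k, hk⟩, fun x y => ?_⟩
  obtain ⟨k, hk, hle⟩ := key x y
  have : gam T ≤ k := Nat.sInf_le hk
  omega

end Pool.Agent.Results.MP_128071_co.DiameterBound
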